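import Pool.Agent.Ha75ade.Ana

set_option autoImplicit false

open Filter Topology

namespace Pool.Agent.Results.MP_a75ade_an.Main

open Pool.Agent.Ha75ade

theorem weak_of_conv {P Q : ℕ → MvPolynomial (Fin 2) ℂ} {F : MvPowerSeries (Fin 2) ℂ}
    {G : MvPolynomial (Fin 2) ℂ} (h : Converges P Q F G) : ConvergesWeakly P Q F G := by
  intro K hK hG ε hε
  obtain ⟨h1, h2⟩ := h K hK hG
  filter_upwards [h1, h2 ε hε] with n hn1 hn2
  exact ⟨P n, Q n, rfl, fun z hz => ⟨hn1 z hz, hn2 z hz⟩⟩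

theorem main (ν : ℕ) (hν : 2 ≤ ν) (f : MvPowerSeries (Fin 2) ℂ)
    (hf : ((G0 ν : MvPolynomial (Fin 2) ℂ) : MvPowerSeries (Fin 2) ℂ) * f = 1)
    (S : ℕ → Finset (ℕ × ℕ)) (hS : ∀ n, IsInterpSet n ν (S n)) :
    ∃ P Q : ℕ → MvPolynomial (Fin 2) ℂ, (∀ n, IsApproximant n ν f (S n) (P n) (Q n)) ∧
      ¬ ConvergesWeakly P Q 1 (G0 ν) := by
  have hν0 : 0 < ν := by omega
  have hf0 : f = f0 ν := by
    have h1 := G0_mul_f0 hν0
    calc f = (((G0 ν : MvPolynomial (Fin 2) ℂ) : MvPowerSeries (Fin 2) ℂ) * f0 ν) * f := by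
          rw [h1, one_mul]
      _ = (((G0 ν : MvPolynomial (Fin 2) ℂ) : MvPowerSeries (Fin 2) ℂ) * f) * f0 ν := by ring
      _ = f0 ν := by rw [hf, one_mul]
  subst hf0
  have hex : ∀ n, ∃ PQ : MvPolynomial (Fin 2) ℂ × MvPolynomial (Fin 2) ℂ,
      IsApproximant n ν (f0 ν) (S n) PQ.1 PQ.2 ∧ (ν ≤ n → ¬ ν ∣ n + 1 → Bad ν PQ.1 PQ.2) := by
    intro n
    by_cases h : ν ≤ n ∧ ¬ ν ∣ n + 1
    · obtain ⟨P, Q, h1, h2⟩ := exists_bad hν h.1 h.2 (hS n)
      exact ⟨(P, Q), h1, fun _ _ => h2⟩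
    · refine ⟨(1, G0 ν), G0_approx hν0 _, fun h1 h2 => absurd ⟨h1, h2⟩ h⟩
  choose PQ h1 h2 using hex
  refine ⟨fun n => (PQ n).1, fun n => (PQ n).2, h1, ?_⟩
  intro hconv
  obtain ⟨K, ε, hK, hε, hG, hcore⟩ := core hν
  have hev := hconv K hK hG ε hε
  rw [eventually_atTop] at hev
  obtain ⟨N, hN⟩ := hev
  have hle1 : ν ≤ ν * (N + 1) := Nat.le_mul_of_pos_right ν (by omega)
  have hle2 : N ≤ ν * (N + 1) := by nlinarith
  have hdiv : ¬ ν ∣ ν * (N + 1) + 1 := by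
    intro h
    have h3 : ν ∣ 1 := (Nat.dvd_add_right (dvd_mul_right ν (N + 1))).mp h
    have := Nat.le_of_dvd (by norm_num) h3
    omega
  exact hcore _ _ (h2 _ hle1 hdiv) (hN _ hle2)

/-- For every `ν ≥ 2` the assertion of Q1 is false, both for the notion of convergence of the
problem and for the weaker one in which `P_n / Q_n` may first be brought to another form. The
counterexample is `F = 1`, `G = 1 - z₁ ^ ν`: for every choice of interpolation sets there is a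
sequence of corresponding rational approximants that does not converge to `F / G`. -/
theorem result : ∀ ν : ℕ, 2 ≤ ν →
    (¬ Assertion ν Converges) ∧ (¬ Assertion ν ConvergesWeakly) ∧
    (∀ f : MvPowerSeries (Fin 2) ℂ,
      (((1 - MvPolynomial.X 0 ^ ν : MvPolynomial (Fin 2) ℂ)) : MvPowerSeries (Fin 2) ℂ) * f = 1 →
      ∀ S : ℕ → Finset (ℕ × ℕ), (∀ n, IsInterpSet n ν (S n)) →
      ∃ P Q : ℕ → MvPolynomial (Fin 2) ℂ, (∀ n, IsApproximant n ν f (S n) (P n) (Q n)) ∧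
        ¬ Converges P Q 1 (1 - MvPolynomial.X 0 ^ ν) ∧
        ¬ ConvergesWeakly P Q 1 (1 - MvPolynomial.X 0 ^ ν)) := by
  intro ν hν
  have hν0 : 0 < ν := by omega
  have hkey : ∀ Conv, (∀ P Q, Conv P Q 1 (G0 ν) → ConvergesWeakly P Q 1 (G0 ν)) →
      ¬ Assertion ν Conv := by
    intro Conv himp hA
    obtain ⟨S, hS, hconv⟩ := hA 1 (G0 ν) (f0 ν) isEntire_one (G0_degree hν0)
      (by rw [eval_G0]; simp [hν0.ne']) (G0_mul_f0 hν0)
    obtain ⟨P, Q, hPQ, hno⟩ := main ν hν (f0 ν) (G0_mul_f0 hν0) S hS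
    exact hno (himp P Q (hconv P Q hPQ))
  refine ⟨hkey _ (fun P Q h => weak_of_conv h), hkey _ (fun P Q h => h), ?_⟩
  intro f hf S hS
  obtain ⟨P, Q, hPQ, hno⟩ := main ν hν f hf S hS
  exact ⟨P, Q, hPQ, fun h => hno (weak_of_conv h), hno⟩

end Pool.Agent.Results.MP_a75ade_an.Main
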